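import Pool.Agent.Helper27.NC.Word
import Pool.Agent.Helper70.NB.Wrap
import Pool.Agent.Helper60.NB.Frm

/-!
# The programs for words of bits
-/

set_option autoImplicit false

namespace Pool.Agent.Helper70.NC

open Pool.Agent.Helper19.NF Pool.Agent.Helper27.NC
open Pool.Agent.Helper27.NB (num)

variable {K : Type} [Field K] [Fintype K] {n m e : ℕ} [NeZero m]

/-- The summands of the words. -/
def al (e : ℕ) {m : ℕ} (c : Bool × ZMod m) (l : K × K) (y : Bool) (i : Fin e) : K :=
  if y then l.2 * l.1 ^ (e * num c + i.val) else 0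

omit [NeZero m] in
/-- The table of words is a sum over the symbols. -/
theorem table_eq (J : (Fin e → K) × (K × K) → Bool) :
    table (m := m) J = fun b c => ∑ l : K × K, al e c l (J (b, l)) := by
  funext b c i
  rw [Finset.sum_apply]
  rfl

/-- B15': the program without store. -/
theorem det_table (hn : 1 ≤ n) (x0 : Pos n m → Fin e → K) (hB : n * (n + 1) * m ≤ Fintype.card K ^ e)
    (hK : Fintype.card K ^ 2 ≤ Fintype.card K ^ e) :
    ∃ (S : ℕ) (P : Prog ((Fin e → K) × (K × K)) Bool (Fin e → K) 1 S), S ≤ (2 * Fintype.card K ^ e) ^ (4 * n + 2) ∧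
      ∀ J : (Fin e → K) × (K × K) → Bool, P.Outputs J (P.start 0) (out x0 (table J)) ∧
        Nat.card {b // P.Asks J (P.start 0) b} ≤ n * (n + 1) * m * Fintype.card K ^ 2 := by
  classical
  have h1 : Fintype.card (Fin e → K) = Fintype.card K ^ e := by rw [Fintype.card_fun, Fintype.card_fin]
  have h2 : Fintype.card (K × K) = Fintype.card K ^ 2 := by rw [Fintype.card_prod, sq]
  obtain ⟨S, P, hS, hP⟩ := Pool.Agent.Helper70.NB.det_program (F := Bool) hn x0 (al e) (by rw [h1]; exact hB)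
    (by rw [h1, h2]; exact hK)
  rw [h1] at hS
  rw [h2] at hP
  refine ⟨S, P, hS, fun J => ?_⟩
  rw [table_eq]
  exact hP J

/-- B14': the pushdown program. -/
theorem push_table (x0 : Pos n m → Fin e → K) (hB : n * (n + 1) * m * (2 * m) ≤ Fintype.card K ^ e)
    (hB2 : 2 ≤ Fintype.card K ^ e) (hK : Fintype.card K ^ 2 ≤ Fintype.card K ^ e) :
    ∃ (Q Γ : Type) (_ : Finite Q) (_ : Finite Γ) (P : PProg ((Fin e → K) × (K × K)) Bool (Fin e → K) Q Γ),
      Nat.card Q ≤ (2 * Fintype.card K ^ e) ^ 5 ∧ Nat.card Γ ≤ (2 * Fintype.card K ^ e) ^ 2 ∧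
      ∀ J : (Fin e → K) × (K × K) → Bool, P.Outputs J (out x0 (table J)) ∧
        Nat.card {b // P.Asks J b} ≤ n * (n + 1) * m * Fintype.card K ^ 2 := by
  classical
  have h1 : Fintype.card (Fin e → K) = Fintype.card K ^ e := by rw [Fintype.card_fun, Fintype.card_fin]
  have h2 : Fintype.card (K × K) = Fintype.card K ^ 2 := by rw [Fintype.card_prod, sq]
  obtain ⟨Q, Γ, i1, i2, P, h3, h4, h5⟩ := Pool.Agent.Helper60.NB.pushdown_program5 (n := n) (m := m)
    (B := Fin e → K) (Λ := K × K) (F := Bool) x0 (al e) (by rw [h1]; exact hB) (by rw [h1]; exact hB2)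
    (by rw [h1, h2]; exact hK)
  rw [h1] at h3 h4
  rw [h2] at h5
  refine ⟨Q, Γ, i1, i2, P, h3, h4, fun J => ?_⟩
  rw [table_eq]
  exact h5 J

end Pool.Agent.Helper70.NC
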